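import Pool.Agent.H598.LF.Final

/-!
# Weak approximation for diagonal hypersurfaces and sums of forms over the rational function field
# over an algebraically closed field

Let `κ` be an algebraically closed field and `K = κ(t)`. Let `a_1, ..., a_s` be polynomials in `m`
variables `u` over `K`. For a field `L` containing `K`, `Cone a k L` is the set of the pairs `(u, x)` in `L ^ m × L ^ s` with `a_i(u) ≠ 0` for
all `i`, `x ≠ 0` and `a_1(u) x_1 ^ k + ... + a_s(u) x_s ^ k = 0`, and `Total a k L` is its quotient by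
the action of the multiplicative group of `L` on `x`: the `L`-points of the family `V`, over an open
part of the affine space of dimension `m`, of diagonal hypersurfaces in the projective space of
dimension `s - 1`. For `m = 0`, `V` is one diagonal hypersurface. The places of `K` are the prime
ideals `v ≠ 0` of `κ[t]`, with the completions `v.adicCompletion K`, and the place at infinity with the
completion `RatFunc.CompletionAtInfty κ`.
-/

namespace Pool.Agent.Results.MP_f9bf63_ag.DiagonalAlgClosed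

open Polynomial IsDedekindDomain

variable {K : Type*} [Field K] {m s : ℕ}

/-- The pairs `(u, x)` over `L`, with the topology induced from `L ^ m × L ^ s`. -/
def Cone (a : Fin s → MvPolynomial (Fin m) K) (k : ℕ) (L : Type*) [Field L] [Algebra K L] :
    Set ((Fin m → L) × (Fin s → L)) :=
  {p | (∀ i, MvPolynomial.aeval p.1 (a i) ≠ 0) ∧ p.2 ≠ 0 ∧
    ∑ i, MvPolynomial.aeval p.1 (a i) * p.2 i ^ k = 0}

/-- Two pairs lie over the same point `u` and their `x` are proportional. -/
def totalSetoid (a : Fin s → MvPolynomial (Fin m) K) (k : ℕ) (L : Type*) [Field L]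
    [Algebra K L] : Setoid (Cone a k L) where
  r x y := y.1.1 = x.1.1 ∧ ∃ c : L, c ≠ 0 ∧ ∀ i, y.1.2 i = c * x.1.2 i
  iseqv :=
    { refl := fun x => ⟨rfl, 1, one_ne_zero, fun i => (one_mul _).symm⟩
      symm := fun {x y} h => by
        obtain ⟨h0, c, hc, h⟩ := h
        exact ⟨h0.symm, c⁻¹, inv_ne_zero hc, fun i => by rw [h i, inv_mul_cancel_left₀ hc]⟩
      trans := fun {x y z} h h' => by
        obtain ⟨h0, c, hc, h⟩ := h
        obtain ⟨h0', d, hd, h'⟩ := h'
        exact ⟨h0'.trans h0, d * c, mul_ne_zero hd hc, fun i => by rw [h' i, h i, mul_assoc]⟩ }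

/-- The `L`-points of the family `V` of hypersurfaces. -/
def Total (a : Fin s → MvPolynomial (Fin m) K) (k : ℕ) (L : Type*) [Field L] [Algebra K L] :
    Type _ :=
  Quotient (totalSetoid a k L)

/-- The `L`-points carry the quotient topology. -/
instance (a : Fin s → MvPolynomial (Fin m) K) (k : ℕ)
    (L : Type*) [Field L] [Algebra K L] [TopologicalSpace L] : TopologicalSpace (Total a k L) :=
  instTopologicalSpaceQuotient

variable {a : Fin s → MvPolynomial (Fin m) K} {k : ℕ}

/-- A pair over `K` as a pair over `L`. -/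
def extend (L : Type*) [Field L] [Algebra K L] (p : Cone a k K) : Cone a k L :=
  ⟨(fun j => algebraMap K L (p.1.1 j), fun i => algebraMap K L (p.1.2 i)), by
    refine ⟨fun i h0 => ?_, ?_, ?_⟩
    · rw [Pool.Agent.H598.FI.aeval_alg] at h0
      exact p.2.1 i ((_root_.map_eq_zero _).1 h0)
    · intro h
      apply p.2.2.1
      funext i
      have h1 : algebraMap K L (p.1.2 i) = 0 := congrFun h i
      exact (_root_.map_eq_zero _).1 h1
    · have h2 := congrArg (algebraMap K L) p.2.2.2
      rw [map_zero, map_sum] at h2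
      refine Eq.trans (Finset.sum_congr rfl (fun i _ => ?_)) h2
      rw [map_mul, map_pow, ← Pool.Agent.H598.FI.aeval_alg]⟩

/-- The point of the family given by a pair. -/
def point {L : Type*} [Field L] [Algebra K L] (x : Cone a k L) : Total a k L :=
  Quotient.mk (totalSetoid a k L) x

/-- The solutions `y` in `L ^ m` of `Φ_1(y) + ... + Φ_s(y) = 0` with all `Φ_i(y) ≠ 0`. -/
def Forms (Φ : Fin s → MvPolynomial (Fin m) K) (L : Type*) [Field L] [Algebra K L] :
    Set (Fin m → L) :=
  {y | (∀ i, MvPolynomial.aeval y (Φ i) ≠ 0) ∧ ∑ i, MvPolynomial.aeval y (Φ i) = 0}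

/-- A solution in `K` as a solution in `L`. -/
def extendForms {Φ : Fin s → MvPolynomial (Fin m) K} (L : Type*) [Field L] [Algebra K L]
    (y : Forms Φ K) : Forms Φ L :=
  ⟨fun j => algebraMap K L (y.1 j), by
    refine ⟨fun i h0 => ?_, ?_⟩
    · rw [Pool.Agent.H598.FI.aeval_alg] at h0
      exact y.2.1 i ((_root_.map_eq_zero _).1 h0)
    · have h2 := congrArg (algebraMap K L) y.2.2
      rw [map_sum, map_zero] at h2
      refine Eq.trans (Finset.sum_congr rfl (fun i _ => ?_)) h2
      rw [Pool.Agent.H598.FI.aeval_alg]⟩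

/-- Weak approximation for the cones over the fibres of `V`: the `K`-points are dense in the product
over ALL places of the spaces of points over the completions. -/
def ConeWA {κ : Type*} [Field κ] [DecidableEq (RatFunc κ)] {m s : ℕ}
    (a : Fin s → MvPolynomial (Fin m) (RatFunc κ)) (k : ℕ) : Prop :=
  DenseRange (fun z : Cone a k (RatFunc κ) =>
    ((fun v => extend (v.adicCompletion (RatFunc κ)) z, extend (RatFunc.CompletionAtInfty κ) z) :
      (∀ v : HeightOneSpectrum κ[X], Cone a k (v.adicCompletion (RatFunc κ))) ×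
        Cone a k (RatFunc.CompletionAtInfty κ)))

/-- Weak approximation for `V`. -/
def TotalWA {κ : Type*} [Field κ] [DecidableEq (RatFunc κ)] {m s : ℕ}
    (a : Fin s → MvPolynomial (Fin m) (RatFunc κ)) (k : ℕ) : Prop :=
  DenseRange (fun z : Cone a k (RatFunc κ) =>
    ((fun v => point (extend (v.adicCompletion (RatFunc κ)) z),
      point (extend (RatFunc.CompletionAtInfty κ) z)) :
      (∀ v : HeightOneSpectrum κ[X], Total a k (v.adicCompletion (RatFunc κ))) ×
        Total a k (RatFunc.CompletionAtInfty κ)))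

/-- Weak approximation for the solutions of `Φ_1 + ... + Φ_s = 0` with all `Φ_i` not zero. -/
def FormsWA {κ : Type*} [Field κ] [DecidableEq (RatFunc κ)] {m s : ℕ}
    (Φ : Fin s → MvPolynomial (Fin m) (RatFunc κ)) : Prop :=
  DenseRange (fun z : Forms Φ (RatFunc κ) =>
    ((fun v => extendForms (v.adicCompletion (RatFunc κ)) z,
      extendForms (RatFunc.CompletionAtInfty κ) z) :
      (∀ v : HeightOneSpectrum κ[X], Forms Φ (v.adicCompletion (RatFunc κ))) ×
        Forms Φ (RatFunc.CompletionAtInfty κ)))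

lemma total_of_cone {κ : Type*} [Field κ] [DecidableEq (RatFunc κ)] {m s k : ℕ}
    {a : Fin s → MvPolynomial (Fin m) (RatFunc κ)} (h : ConeWA a k) : TotalWA a k := by
  let g : ((∀ v : HeightOneSpectrum κ[X], Cone a k (v.adicCompletion (RatFunc κ))) ×
        Cone a k (RatFunc.CompletionAtInfty κ)) →
      ((∀ v : HeightOneSpectrum κ[X], Total a k (v.adicCompletion (RatFunc κ))) ×
        Total a k (RatFunc.CompletionAtInfty κ)) := fun x => (fun v => point (x.1 v), point x.2)
  have hg : Continuous g := by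
    refine Continuous.prodMk ?_ ?_
    · apply continuous_pi
      intro v
      exact continuous_quotient_mk'.comp ((continuous_apply v).comp continuous_fst)
    · exact continuous_quotient_mk'.comp continuous_snd
  have hgs : Function.Surjective g := by
    intro y
    refine ⟨(fun v => (y.1 v).out, y.2.out), ?_⟩
    apply Prod.ext
    · funext v
      exact Quotient.out_eq _
    · exact Quotient.out_eq _
  exact hgs.denseRange.comp h hg

lemma cone_wa {κ : Type*} [Field κ] [DecidableEq (RatFunc κ)] [IsAlgClosed κ] {k : ℕ}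
    (hk : 2 ≤ k) (hch : ∀ i : ℕ, 1 ≤ i → i ≤ k → ((i : ℕ) : κ) ≠ 0) {m s : ℕ} (hs : 2 * k + 1 ≤ s)
    (a : Fin s → MvPolynomial (Fin m) (RatFunc κ)) : ConeWA a k := by
  refine Pool.Agent.H598.FI.dense_of _ (fun x S U hU Ui hUi => ?_)
  have hVU : ∀ v : HeightOneSpectrum κ[X], ∃ N ∈ nhds (x.1 v).1,
      Subtype.val ⁻¹' N ⊆ U v := fun v => (mem_nhds_subtype _ _ _).1 (hU v)
  choose N hN hNU using hVU
  obtain ⟨Ni, hNi, hNiU⟩ := (mem_nhds_subtype _ _ _).1 hUi
  obtain ⟨c, z, h1, h2, h3, h4, h5⟩ := Pool.Agent.H598.LF.lf_explicit hk hch hs a S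
    (fun v => (x.1 v).1) (fun v => (x.1 v).2.1) (fun v => (x.1 v).2.2.1)
    (fun v => (x.1 v).2.2.2) x.2.1 x.2.2.1 x.2.2.2.1 x.2.2.2.2 N hN Ni hNi
  exact ⟨⟨(c, z), h1, h2, h3⟩, fun v hv => hNU v (h4 v hv), hNiU h5⟩

lemma forms_wa {κ : Type*} [Field κ] [DecidableEq (RatFunc κ)] [IsAlgClosed κ] {k : ℕ}
    (hk : 2 ≤ k) (hch : ∀ i : ℕ, 1 ≤ i → i ≤ k → ((i : ℕ) : κ) ≠ 0) {m s : ℕ} (hs : 2 * k + 1 ≤ s)
    (Φ : Fin s → MvPolynomial (Fin m) (RatFunc κ)) (hΦ : ∀ i, (Φ i).IsHomogeneous k)
    (β : Fin m → Fin s) (hβ : ∀ i, ∀ j ∈ (Φ i).vars, β j = i) : FormsWA Φ := by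
  refine Pool.Agent.H598.FI.dense_of _ (fun x S U hU Ui hUi => ?_)
  have hVU : ∀ v : HeightOneSpectrum κ[X], ∃ N ∈ nhds (x.1 v).1,
      Subtype.val ⁻¹' N ⊆ U v := fun v => (mem_nhds_subtype _ _ _).1 (hU v)
  choose N hN hNU using hVU
  obtain ⟨Ni, hNi, hNiU⟩ := (mem_nhds_subtype _ _ _).1 hUi
  obtain ⟨c, h1, h2, h3, h4⟩ := Pool.Agent.H598.LF.forms_lf hk hch hs Φ hΦ β hβ S
    (fun v => (x.1 v).1) (fun v => (x.1 v).2.1) (fun v => (x.1 v).2.2) x.2.1 x.2.2.1 x.2.2.2
    N hN Ni hNi
  exact ⟨⟨c, h1, h2⟩, fun v hv => hNU v (h3 v hv), hNiU h4⟩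

/-- Let `κ` be an algebraically closed field, `K = κ(t)`, `k ≥ 2`, `s ≥ 2 k + 1`, and let the
characteristic of `κ` be `0` or larger than `k` (none of `1, ..., k` is zero in `κ`).

(1) Let `a_1, ..., a_s` be arbitrary polynomials over `K` in any number `m ≥ 0` of variables `u`, and
`V` the family of the hypersurfaces `a_1(u) x_1 ^ k + ... + a_s(u) x_s ^ k = 0` of the projective space
of dimension `s - 1`, over the set of the `u` with `a_1(u) ... a_s(u) ≠ 0` in affine space. The
`K`-points of `V` are dense in the product over ALL places `v` of `K` of the spaces `V(K_v)`; the same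
for the cones over the fibres. For `m = 0`: every diagonal hypersurface of degree `k` in at least
`2 k + 1` variables with non-zero coefficients satisfies weak approximation.

(2) Let `Φ_1, ..., Φ_s` be arbitrary forms of degree `k` in disjoint sets of variables (`β j` is the
number of the set containing the `j`-th variable). The solutions in `K` of `Φ_1 + ... + Φ_s = 0` with
all `Φ_i` not zero are dense in the product over ALL places of the spaces of solutions in `K_v`. -/
theorem result (κ : Type*) [Field κ] [IsAlgClosed κ] [DecidableEq (RatFunc κ)] (k : ℕ)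
    (hk : 2 ≤ k) (hch : ∀ i : ℕ, 1 ≤ i → i ≤ k → ((i : ℕ) : κ) ≠ 0) :
    (∀ m s : ℕ, 2 * k + 1 ≤ s → ∀ a : Fin s → MvPolynomial (Fin m) (RatFunc κ),
      ConeWA a k ∧ TotalWA a k) ∧
    ∀ m s : ℕ, 2 * k + 1 ≤ s → ∀ Φ : Fin s → MvPolynomial (Fin m) (RatFunc κ),
      (∀ i, (Φ i).IsHomogeneous k) → ∀ β : Fin m → Fin s, (∀ i, ∀ j ∈ (Φ i).vars, β j = i) →
      FormsWA Φ := by
  refine ⟨fun m s hs a => ?_, fun m s hs Φ hΦ β hβ => forms_wa hk hch hs Φ hΦ β hβ⟩
  have h := cone_wa hk hch hs a
  exact ⟨h, total_of_cone h⟩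

end Pool.Agent.Results.MP_f9bf63_ag.DiagonalAlgClosed
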